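import Mathlib
import Pool.Agent.Q122.UK.Fin

set_option autoImplicit false

/-!
# A universally Koszul algebra that is not absolutely Koszul

Let `L` be the field with four elements. The algebra is `R = F_2 ⊕ L^3 ⊕ (F_2^2 ⊕ L^2)`, with the
product of `(x, y, z)` and `(x', y', z')` in `R_1 = L^3` equal to
`(Tr (x x'), Tr (y y'), x z' + x' z + (z z')^2, y z' + y' z + (z z')^2)`.
Its Hilbert function is `1, 6, 6`. Every nonzero `l ∈ R_1` satisfies `ann(l)_1 R_1 = R_2`, so `R` is
universally Koszul. Over `L` there are linear forms `f`, `g` of `R ⊗ L` with `ann(f)_1 = L g` and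
`ann(g)_1 = L f`, while `g R_1` and `f R_1` are hyperplanes of `R_2 ⊗ L`. The `R`-module
`(R ⊗ L)/(f)` has infinite linearity defect.
-/

namespace Pool.Agent.Results.MP_7283bc_al.Disproof

universe u

section Defs

open MvPolynomial

variable {K : Type u} [Field K] {n : ℕ}

/-- The element `r` of `K[x_1,…,x_n]/J` is the class of a form of degree `d`. -/
def IsForm (J : Ideal (MvPolynomial (Fin n) K)) (d : ℕ) (r : MvPolynomial (Fin n) K ⧸ J) : Prop :=
  ∃ p : MvPolynomial (Fin n) K, p.IsHomogeneous d ∧ Ideal.Quotient.mk J p = r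

/-- `J` is a homogeneous ideal contained in `(x_1,…,x_n)^2`, so `K[x_1,…,x_n]/J` is a standard
graded `K`-algebra. -/
def IsStandard (J : Ideal (MvPolynomial (Fin n) K)) : Prop :=
  (∀ p ∈ J, ∀ i : ℕ, homogeneousComponent i p ∈ J) ∧
    J ≤ Ideal.span (Set.range (X : Fin n → MvPolynomial (Fin n) K)) ^ 2

/-- The ideal `I` of `K[x_1,…,x_n]/J` is generated by linear forms. -/
def LinearlyGenerated (J : Ideal (MvPolynomial (Fin n) K))
    (I : Ideal (MvPolynomial (Fin n) K ⧸ J)) : Prop :=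
  I = Ideal.span {r | r ∈ I ∧ IsForm J 1 r}

/-- The ideal `I` of `R = K[x_1,…,x_n]/J` has a `d`-linear graded free resolution over `R`:
`⋯ → R(-d-2)^{b_2} → R(-d-1)^{b_1} → R(-d)^{b_0} → I → 0`. -/
def HasLinearResolution (J : Ideal (MvPolynomial (Fin n) K))
    (I : Ideal (MvPolynomial (Fin n) K ⧸ J)) (d : ℕ) : Prop :=
  ∃ (b : ℕ → ℕ) (g : Fin (b 0) → MvPolynomial (Fin n) K ⧸ J)
    (A : (i : ℕ) → Matrix (Fin (b i)) (Fin (b (i + 1))) (MvPolynomial (Fin n) K ⧸ J)),
    (∀ j, IsForm J d (g j)) ∧ (∀ i r c, IsForm J 1 (A i r c)) ∧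
    Ideal.span (Set.range g) = I ∧
    (∀ v : Fin (b 0) → MvPolynomial (Fin n) K ⧸ J,
      ∑ j, v j * g j = 0 ↔ ∃ w, (A 0).mulVec w = v) ∧
    (∀ (i : ℕ) (v : Fin (b (i + 1)) → MvPolynomial (Fin n) K ⧸ J),
      (A i).mulVec v = 0 ↔ ∃ w, (A (i + 1)).mulVec w = v)

/-- `K[x_1,…,x_n]/J` is universally Koszul: all ideals generated by linear forms have a linear
resolution. -/
def UniversallyKoszul (J : Ideal (MvPolynomial (Fin n) K)) : Prop :=
  ∀ I : Ideal (MvPolynomial (Fin n) K ⧸ J), LinearlyGenerated J I → HasLinearResolution J I 1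

/-- The minimal graded free resolutions of the finitely generated graded `R`-modules,
`R = K[x_1,…,x_n]/J`. The module `F_i` is free with a basis indexed by the finite set `ι i`, the
basis element `c` has degree `deg i c`, the matrix of `F_{i+1} → F_i` is `A i`. Each nonzero entry
is a form of positive degree, equal to the difference of the degrees of the two basis elements (so
that the maps are homogeneous of degree zero and minimal), and the complex is exact at `F_{i+1}` for
all `i ≥ 0`. It is the minimal graded free resolution of the cokernel of `A 0`. -/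
def IsMinimalGradedResolution (J : Ideal (MvPolynomial (Fin n) K)) (ι : ℕ → Type)
    [∀ i, Fintype (ι i)] (deg : (i : ℕ) → ι i → ℤ)
    (A : (i : ℕ) → Matrix (ι i) (ι (i + 1)) (MvPolynomial (Fin n) K ⧸ J)) : Prop :=
  (∀ i r c, A i r c = 0 ∨
    ∃ d : ℕ, 1 ≤ d ∧ deg (i + 1) c = deg i r + d ∧ IsForm J d (A i r c)) ∧
  (∀ (i : ℕ) (v : ι (i + 1) → MvPolynomial (Fin n) K ⧸ J),
    (A i).mulVec v = 0 ↔ ∃ w, (A (i + 1)).mulVec w = v)

/-- The linear part of a complex of graded free modules: the entries of degree `1` are kept and the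
entries of degree at least `2` are replaced by `0`. -/
def linPart {R : Type*} [CommRing R] {ι : ℕ → Type} (deg : (i : ℕ) → ι i → ℤ)
    (A : (i : ℕ) → Matrix (ι i) (ι (i + 1)) R) (i : ℕ) : Matrix (ι i) (ι (i + 1)) R :=
  fun r c => if deg (i + 1) c = deg i r + 1 then A i r c else 0

/-- The homology `H_{i+1}` of a complex with differentials `A i : F_{i+1} → F_i` is not zero. -/
def HomologyNeZero {R : Type*} [CommRing R] {ι : ℕ → Type} [∀ i, Fintype (ι i)]
    (A : (i : ℕ) → Matrix (ι i) (ι (i + 1)) R) (i : ℕ) : Prop :=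
  ∃ v, (A i).mulVec v = 0 ∧ ∀ w, (A (i + 1)).mulVec w ≠ v

/-- `R = K[x_1,…,x_n]/J` is absolutely Koszul: for every finitely generated graded `R`-module the
linear part of its minimal graded free resolution has nonzero homology in finitely many degrees
only. -/
def AbsolutelyKoszul (J : Ideal (MvPolynomial (Fin n) K)) : Prop :=
  ∀ (ι : ℕ → Type) [∀ i, Fintype (ι i)] (deg : (i : ℕ) → ι i → ℤ)
    (A : (i : ℕ) → Matrix (ι i) (ι (i + 1)) (MvPolynomial (Fin n) K ⧸ J)),
    IsMinimalGradedResolution J ι deg A → ∃ N : ℕ, ∀ i ≥ N, ¬ HomologyNeZero (linPart deg A) i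

end Defs

open MvPolynomial

/-- There is a standard graded algebra `R = K[x_1,…,x_n]/J` over the field `K` with two elements
that is universally Koszul and has a finitely generated graded module with a minimal graded free
resolution `F` such that `H_i(lin F) ≠ 0` for all `i ≥ 1`; in particular `R` is not absolutely
Koszul. -/
theorem result : ∃ (n : ℕ) (J : Ideal (MvPolynomial (Fin n) (ZMod 2))),
    IsStandard J ∧ UniversallyKoszul J ∧
    (∃ (ι : ℕ → Type) (_ : ∀ i, Fintype (ι i)) (deg : (i : ℕ) → ι i → ℤ)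
      (A : (i : ℕ) → Matrix (ι i) (ι (i + 1)) (MvPolynomial (Fin n) (ZMod 2) ⧸ J)),
      IsMinimalGradedResolution J ι deg A ∧ ∀ i, HomologyNeZero (linPart deg A) i) ∧
    ¬ AbsolutelyKoszul J := by
  obtain ⟨γ, hγ, D, h1, h2, h3⟩ := Pool.Agent.Q122.UK.main
  have hex : ∃ (ι : ℕ → Type) (_ : ∀ i, Fintype (ι i)) (deg : (i : ℕ) → ι i → ℤ)
      (A : (i : ℕ) → Matrix (ι i) (ι (i + 1))
        (MvPolynomial (Fin 6) (ZMod 2) ⧸ Pool.Agent.Q122.UK.JJ)),
      IsMinimalGradedResolution Pool.Agent.Q122.UK.JJ ι deg A ∧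
        ∀ i, HomologyNeZero (linPart deg A) i :=
    ⟨Pool.Agent.Q122.UK.idx γ, inferInstance, Pool.Agent.Q122.UK.dg γ, _, ⟨h2, h1⟩, h3⟩
  refine ⟨6, Pool.Agent.Q122.UK.JJ, Pool.Agent.Q122.UK.standard, Pool.Agent.Q122.UK.uk, hex, ?_⟩
  intro habs
  obtain ⟨ι, _, deg, A, hA, hne⟩ := hex
  obtain ⟨N, hN⟩ := habs ι deg A hA
  exact hN N le_rfl (hne N)

end Pool.Agent.Results.MP_7283bc_al.Disproof
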